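import Pool.Agent.Lib.MP_3a7344_al.Ball

set_option autoImplicit false

namespace Pool.Agent.Lib.MP_3a7344_al

open Set Filter
open scoped Classical

variable {G : Type} [Group G]

/-- States of the fusion argument. -/
def St (G : Type) [Group G] : Type :=
  {p : Set G × Set G // p.1.Finite ∧ p.1 ⊆ p.2 ∧ p.2.Infinite ∧ Subgroup.closure p.2 = ⊤}

lemma list_of_mem_closure {S : Set G} {x : G} (hx : x ∈ Subgroup.closure S) :
    ∃ l : List G, (∀ y ∈ l, y ∈ S ∨ y⁻¹ ∈ S) ∧ l.prod = x := by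
  have h1 : x ∈ (Subgroup.closure S).toSubmonoid := hx
  rw [Subgroup.closure_toSubmonoid] at h1
  obtain ⟨l, hl, hp⟩ := Submonoid.exists_list_of_mem_closure h1
  exact ⟨l, fun y hy => hl y hy, hp⟩

theorem baire [Countable G] [Infinite G]
    (hfast : ∀ X : Set G, Subgroup.closure X = ⊤ → X.Infinite → ∃ n : ℕ, Ball n X = univ) :
    ∃ (Y X : Set G) (K : ℕ), Y.Finite ∧ Y ⊆ X ∧ X.Infinite ∧ Subgroup.closure X = ⊤ ∧
      ∀ Z, Y ⊆ Z → Z ⊆ X → Z.Infinite → Subgroup.closure Z = ⊤ → Ball K Z = univ := by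
  by_contra hcon
  push Not at hcon
  obtain ⟨g, hg⟩ := exists_surjective_nat G
  have key : ∀ (n : ℕ) (s : St G), ∃ s' : St G, s'.1.2 ⊆ s.1.2 ∧ s.1.1 ⊆ s'.1.1 ∧
      g n ∈ Subgroup.closure s'.1.1 ∧ s.1.1.ncard < s'.1.1.ncard ∧ Ball n s'.1.2 ≠ univ := by
    rintro n ⟨⟨Y, X⟩, h1, h2, h3, h4⟩
    obtain ⟨Z, hYZ, hZX, hZi, hZg, hZb⟩ := hcon Y X n h1 h2 h3 h4
    have hgn : g n ∈ Subgroup.closure Z := by rw [hZg]; trivial
    obtain ⟨l, hl, hlp⟩ := list_of_mem_closure hgn
    set F : Set G := {x | x ∈ Z ∧ (x ∈ l ∨ x⁻¹ ∈ l)} with hF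
    have hFfin : F.Finite := by
      apply Set.Finite.subset ((l.toFinset ∪ (l.map (fun x => x⁻¹)).toFinset).finite_toSet)
      rintro x ⟨_, hx | hx⟩
      · simp [hx]
      · simp only [Finset.coe_union, List.coe_toFinset, Set.mem_union]
        right
        show x ∈ l.map (fun x => x⁻¹)
        rw [List.mem_map]
        exact ⟨x⁻¹, hx, inv_inv x⟩
    have hFg : g n ∈ Subgroup.closure F := by
      rw [← hlp]
      apply Subgroup.list_prod_mem
      intro x hx
      rcases hl x hx with h | h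
      · exact Subgroup.subset_closure ⟨h, Or.inl hx⟩
      · apply (Subgroup.inv_mem_iff _).1
        exact Subgroup.subset_closure ⟨h, Or.inr (by rw [inv_inv]; exact hx)⟩
    obtain ⟨x, hxZ, hxY⟩ := (hZi.sdiff h1).nonempty
    have hfin : (Y ∪ F ∪ {x}).Finite := (h1.union hFfin).union (Set.finite_singleton x)
    refine ⟨⟨⟨Y ∪ F ∪ {x}, Z⟩, hfin, ?_, hZi, hZg⟩, hZX, ?_, ?_, ?_, hZb⟩
    · apply union_subset (union_subset hYZ (fun y hy => hy.1))
      rw [Set.singleton_subset_iff]; exact hxZ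
    · exact fun y hy => Or.inl (Or.inl hy)
    · exact Subgroup.closure_mono (fun y hy => Or.inl (Or.inr hy)) hFg
    · apply Set.ncard_lt_ncard _ hfin
      have hYs : Y ⊆ Y ∪ F ∪ {x} := fun y hy => Or.inl (Or.inl hy)
      exact (Set.ssubset_iff_of_subset hYs).2 ⟨x, Or.inr rfl, hxY⟩
  choose next hn1 hn2 hn3 hn4 hn5 using key
  let s0 : St G := ⟨⟨∅, univ⟩, Set.finite_empty, Set.empty_subset _, Set.infinite_univ,
    Subgroup.closure_univ⟩
  let seq : ℕ → St G := fun n => Nat.rec s0 (fun n s => next n s) n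
  have hseq : ∀ n, seq (n + 1) = next n (seq n) := fun n => rfl
  have hY : ∀ n m, n ≤ m → (seq n).1.1 ⊆ (seq m).1.1 := by
    intro n m hnm
    induction hnm with
    | refl => exact subset_rfl
    | step _ ih => exact ih.trans (hn2 _ _)
  have hX : ∀ n m, n ≤ m → (seq m).1.2 ⊆ (seq n).1.2 := by
    intro n m hnm
    induction hnm with
    | refl => exact subset_rfl
    | step _ ih => exact (hn1 _ _).trans ih
  set U : Set G := ⋃ n, (seq n).1.1 with hU
  have hUX : ∀ n, U ⊆ (seq n).1.2 := by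
    intro n x hx
    obtain ⟨m, hm⟩ := Set.mem_iUnion.1 hx
    rcases le_total n m with h | h
    · exact hX n m h ((seq m).2.2.1 hm)
    · exact (seq n).2.2.1 (hY m n h hm)
  have hUgen : Subgroup.closure U = ⊤ := by
    rw [eq_top_iff]
    intro x _
    obtain ⟨n, rfl⟩ := hg x
    exact Subgroup.closure_mono (Set.subset_iUnion (fun n => (seq n).1.1) (n + 1))
      (hn3 n (seq n))
  have hcard : ∀ n, n ≤ (seq n).1.1.ncard := by
    intro n
    induction n with
    | zero => exact Nat.zero_le _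
    | succ n ih =>
      have := hn4 n (seq n)
      rw [hseq]
      omega
  have hUinf : U.Infinite := by
    intro hfin
    have h1 := hcard (U.ncard + 1)
    have hsub : ∀ N, (seq N).1.1 ⊆ U := fun N => Set.subset_iUnion (fun n => (seq n).1.1) N
    have h2 : (seq (U.ncard + 1)).1.1.ncard ≤ U.ncard :=
      Set.ncard_le_ncard (hsub (U.ncard + 1)) hfin
    omega
  obtain ⟨n, hn⟩ := hfast U hUgen hUinf
  apply hn5 n (seq n)
  rw [Set.eq_univ_iff_forall]
  intro x
  have hx : x ∈ Ball n U := by rw [hn]; trivial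
  exact Ball_mono (hUX (n + 1)) hx

end Pool.Agent.Lib.MP_3a7344_al
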