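import Mathlib

set_option autoImplicit false

namespace Pool.Agent.Lib.MP_3a7344_al

open Set Filter

variable {G : Type} [Group G]

/-- Products of at most `n` elements of `X` or their inverses. -/
def Ball (n : ℕ) (X : Set G) : Set G :=
  {g | ∃ l : List G, l.length ≤ n ∧ (∀ x ∈ l, x ∈ X ∨ x⁻¹ ∈ X) ∧ l.prod = g}

lemma Ball_mono {n : ℕ} {X Z : Set G} (h : X ⊆ Z) : Ball n X ⊆ Ball n Z := by
  rintro g ⟨l, hl, hx, rfl⟩
  exact ⟨l, hl, fun x hx' => (hx x hx').imp (fun a => h a) (fun a => h a), rfl⟩

lemma Ball_mono_nat {n m : ℕ} (h : n ≤ m) (X : Set G) : Ball n X ⊆ Ball m X := by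
  rintro g ⟨l, hl, hx, rfl⟩
  exact ⟨l, hl.trans h, hx, rfl⟩

lemma Ball_subset_closure (n : ℕ) (X : Set G) : Ball n X ⊆ Subgroup.closure X := by
  rintro g ⟨l, hl, hx, rfl⟩
  apply Subgroup.list_prod_mem
  intro x hx'
  rcases hx x hx' with h | h
  · exact Subgroup.subset_closure h
  · have := Subgroup.subset_closure h
    exact (Subgroup.inv_mem_iff _).1 this

/-- An ultrafilter is eventually constant along a map into a finite type. -/
lemma ev_const {α β : Type*} [Finite β] (u : Ultrafilter α) (f : α → β) :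
    ∃ b, ∀ᶠ x in (u : Filter α), f x = b := by
  obtain ⟨b, hb⟩ := (u.map f).eq_pure_of_finite
  refine ⟨b, ?_⟩
  have h : ({b} : Set β) ∈ u.map f := by rw [hb]; exact Filter.mem_pure.2 rfl
  exact h

/-- Evaluation of a padded word shape. -/
def evw {C n : ℕ} (σ : Fin n → Option (Bool × Fin C)) (e : Fin C → G) : G :=
  (List.ofFn (fun i => match σ i with
    | none => (1 : G)
    | some (true, j) => e j
    | some (false, j) => (e j)⁻¹)).prod

lemma Ball_shape {C n : ℕ} (e : Fin C → G) {h : G} (hh : h ∈ Ball n (range e)) :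
    ∃ σ : Fin n → Option (Bool × Fin C), evw σ e = h := by
  obtain ⟨l, hl, hx, rfl⟩ := hh
  set l' : List G := l ++ List.replicate (n - l.length) 1 with hl'
  have hlen : l'.length = n := by
    rw [hl', List.length_append, List.length_replicate]; omega
  have hprod : l'.prod = l.prod := by simp [hl']
  have hmem : ∀ x ∈ l', ∃ s : Option (Bool × Fin C), (match s with
      | none => (1 : G)
      | some (true, j) => e j
      | some (false, j) => (e j)⁻¹) = x := by
    intro x hx'
    rw [hl', List.mem_append] at hx'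
    rcases hx' with h1 | h1
    · rcases hx x h1 with ⟨j, hj⟩ | ⟨j, hj⟩
      · exact ⟨some (true, j), hj⟩
      · refine ⟨some (false, j), ?_⟩
        show (e j)⁻¹ = x
        rw [hj, inv_inv]
    · exact ⟨none, (List.eq_of_mem_replicate h1).symm⟩
  have hch : ∀ i : Fin n, ∃ s : Option (Bool × Fin C), (match s with
      | none => (1 : G)
      | some (true, j) => e j
      | some (false, j) => (e j)⁻¹) = l'[(i : ℕ)]'(by rw [hlen]; exact i.2) :=
    fun i => hmem _ (List.getElem_mem _)
  choose σ hσ using hch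
  refine ⟨σ, ?_⟩
  rw [evw, ← hprod]
  congr 1
  apply List.ext_getElem
  · rw [List.length_ofFn, hlen]
  · intro i h1 h2
    rw [List.getElem_ofFn]
    rw [List.length_ofFn] at h1
    exact hσ ⟨i, h1⟩

/-- The ball of radius `K` of a finite set together with a fixed set. -/
def BallF (K : ℕ) (Y : Set G) (w : Finset G) : Set G := Ball K ((↑w : Set G) ∪ Y)

/-- An ultrafilter on finite sets of bounded size is bad for finitely many targets only. -/
lemma finite_bad_zero (K : ℕ) {Y : Set G} (hY : Y.Finite) (P : Ultrafilter (Finset G))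
    (hP : ∃ C : ℕ, ∀ᶠ w in (P : Filter (Finset G)), w.card ≤ C) :
    {h : G | ¬ ∀ᶠ w in (P : Filter (Finset G)), h ∉ BallF K Y w}.Finite := by
  classical
  obtain ⟨C, hC⟩ := hP
  set D : ℕ := C + hY.toFinset.card + 1 with hD
  have henum : ∀ w : Finset G, w.card ≤ C →
      ∃ e : Fin D → G, ((↑w : Set G) ∪ Y) ⊆ range e := by
    intro w hw
    have hcard : (w ∪ hY.toFinset).card ≤ D := by
      refine (Finset.card_union_le _ _).trans ?_
      omega
    obtain ⟨f⟩ : Nonempty ((w ∪ hY.toFinset : Finset G) ↪ Fin D) := by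
      apply Function.Embedding.nonempty_of_card_le
      rw [Fintype.card_coe, Fintype.card_fin]
      exact hcard
    refine ⟨fun i => if h : ∃ x, f x = i then (h.choose : G) else 1, ?_⟩
    intro x hx
    have hx' : x ∈ w ∪ hY.toFinset := by
      rcases hx with hx | hx
      · exact Finset.mem_union_left _ (by simpa using hx)
      · exact Finset.mem_union_right _ (by simpa using hx)
    refine ⟨f ⟨x, hx'⟩, ?_⟩
    have hex : ∃ z, f z = f ⟨x, hx'⟩ := ⟨_, rfl⟩
    show (if h : ∃ z, f z = f ⟨x, hx'⟩ then (h.choose : G) else 1) = x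
    rw [dif_pos hex]
    have := f.injective hex.choose_spec
    rw [this]
  have henum' : ∀ w : Finset G, ∃ e : Fin D → G, w.card ≤ C → ((↑w : Set G) ∪ Y) ⊆ range e := by
    intro w
    by_cases hw : w.card ≤ C
    · obtain ⟨e, he⟩ := henum w hw
      exact ⟨e, fun _ => he⟩
    · exact ⟨fun _ => 1, fun h => absurd h hw⟩
  choose e he using henum'
  have key : ∀ h : {h : G | ¬ ∀ᶠ w in (P : Filter (Finset G)), h ∉ BallF K Y w},
      ∃ σ : Fin K → Option (Bool × Fin D),
        ∀ᶠ w in (P : Filter (Finset G)), evw σ (e w) = (h : G) := by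
    rintro ⟨h, hh⟩
    have hh' : ∀ᶠ w in (P : Filter (Finset G)), h ∈ BallF K Y w := by
      have := Ultrafilter.eventually_not.not.1 (show ¬ ∀ᶠ w in (P : Filter (Finset G)),
        ¬ (h ∈ BallF K Y w) from hh)
      simpa using this
    have hex : ∀ w : Finset G, ∃ σ : Fin K → Option (Bool × Fin D),
        w.card ≤ C → h ∈ BallF K Y w → evw σ (e w) = h := by
      intro w
      by_cases h1 : w.card ≤ C ∧ h ∈ BallF K Y w
      · obtain ⟨σ, hσ⟩ := Ball_shape (e w) (Ball_mono (he w h1.1) h1.2)
        exact ⟨σ, fun _ _ => hσ⟩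
      · exact ⟨fun _ => none, fun h2 h3 => absurd ⟨h2, h3⟩ h1⟩
    choose s hs using hex
    obtain ⟨σ, hσ⟩ := ev_const P s
    refine ⟨σ, ?_⟩
    filter_upwards [hσ, hC, hh'] with w h1 h2 h3
    rw [← h1]
    exact hs w h2 h3
  choose σ hσ using key
  have hinj : Function.Injective σ := by
    intro h h' heq
    have h1 := hσ h
    have h2 := hσ h'
    rw [heq] at h1
    obtain ⟨w, hw1, hw2⟩ := (h1.and h2).exists
    exact Subtype.ext (hw1.symm.trans hw2)
  exact Set.finite_coe_iff.1 (Finite.of_injective σ hinj)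

end Pool.Agent.Lib.MP_3a7344_al
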