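import Pool.Agent.Lib.MP_3a7344_al.Ultra

set_option autoImplicit false

namespace Pool.Agent.Lib.MP_3a7344_al

open Set Filter
open scoped Classical

variable {G : Type} [Group G]

lemma mem_of_prod_mem (H : Subgroup G) : ∀ (n : ℕ) (f : Fin n → G) (i : Fin n),
    (∀ j, j ≠ i → f j ∈ H) → (List.ofFn f).prod ∈ H → f i ∈ H := by
  intro n
  induction n with
  | zero => intro f i; exact i.elim0
  | succ n ih =>
    intro f i hj hp
    rw [List.ofFn_succ, List.prod_cons] at hp
    revert hj
    refine Fin.cases ?_ ?_ i
    · intro hj
      have h1 : (List.ofFn (fun j : Fin n => f j.succ)).prod ∈ H := by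
        apply Subgroup.list_prod_mem
        intro x hx
        rw [List.mem_ofFn] at hx
        obtain ⟨j, rfl⟩ := hx
        exact hj _ (Fin.succ_ne_zero j)
      exact (H.mul_mem_cancel_right h1).1 hp
    · intro i' hj
      have h0 : f 0 ∈ H := hj 0 (Fin.succ_ne_zero i').symm
      have h1 : (List.ofFn (fun j : Fin n => f j.succ)).prod ∈ H :=
        (H.mul_mem_cancel_left h0).1 hp
      exact ih (fun j => f j.succ) i' (fun j hne => hj _ (fun h => hne (Fin.succ_injective _ h))) h1

/-- An irredundant cover of a generating set by `n` parts. -/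
def Irr (Y X : Set G) (n : ℕ) (E : Fin n → Set G) : Prop :=
  (∀ i, E i ⊆ X) ∧ Subgroup.closure (Y ∪ ⋃ i, E i) = ⊤ ∧
    ∀ i, Subgroup.closure (Y ∪ ⋃ (j) (_ : j ≠ i), E j) ≠ ⊤

lemma Irr_le {K : ℕ} {Y X : Set G} (hYX : Y ⊆ X)
    (hfast : ∀ Z, Y ⊆ Z → Z ⊆ X → Subgroup.closure Z = ⊤ → Ball K Z = univ)
    {n : ℕ} {E : Fin n → Set G} (hE : Irr Y X n E) : n ≤ K := by
  obtain ⟨h1, h2, h3⟩ := hE
  by_contra hcon
  push Not at hcon
  have he : ∀ i, ∃ e ∈ E i, e ∉ Subgroup.closure (Y ∪ ⋃ (j) (_ : j ≠ i), E j) := by
    intro i
    by_contra h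
    push Not at h
    apply h3 i
    rw [eq_top_iff, ← h2, Subgroup.closure_le]
    intro x hx
    rcases hx with hx | hx
    · exact Subgroup.subset_closure (Or.inl hx)
    · obtain ⟨j, hj⟩ := Set.mem_iUnion.1 hx
      by_cases hji : j = i
      · subst hji; exact h x hj
      · apply Subgroup.subset_closure
        right
        simp only [Set.mem_iUnion]
        exact ⟨j, hji, hj⟩
  choose e he1 he2 using he
  have hZ := hfast (Y ∪ ⋃ i, E i) subset_union_left
    (union_subset hYX (iUnion_subset h1)) h2
  have hg : (List.ofFn e).prod ∈ Ball K (Y ∪ ⋃ i, E i) := by rw [hZ]; trivial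
  obtain ⟨l, hl, hx, hprod⟩ := hg
  have hn : 0 < n := by omega
  have hφ : ∀ x : G, ∃ j : Fin n, x ∈ l → (x ∈ Y ∪ E j ∨ x⁻¹ ∈ Y ∪ E j) := by
    intro x
    by_cases hxl : x ∈ l
    · rcases hx x hxl with h | h
      · rcases h with h | h
        · exact ⟨⟨0, hn⟩, fun _ => Or.inl (Or.inl h)⟩
        · obtain ⟨j, hj⟩ := Set.mem_iUnion.1 h
          exact ⟨j, fun _ => Or.inl (Or.inr hj)⟩
      · rcases h with h | h
        · exact ⟨⟨0, hn⟩, fun _ => Or.inr (Or.inl h)⟩
        · obtain ⟨j, hj⟩ := Set.mem_iUnion.1 h
          exact ⟨j, fun _ => Or.inr (Or.inr hj)⟩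
    · exact ⟨⟨0, hn⟩, fun h => absurd h hxl⟩
  choose φ hφ using hφ
  obtain ⟨i, hi⟩ : ∃ i, i ∉ l.toFinset.image φ := by
    by_contra h
    push Not at h
    have h4 : (Finset.univ : Finset (Fin n)) ⊆ l.toFinset.image φ := fun i _ => h i
    have h5 := Finset.card_le_card h4
    rw [Finset.card_univ, Fintype.card_fin] at h5
    have h6 : (l.toFinset.image φ).card ≤ l.length :=
      Finset.card_image_le.trans (List.toFinset_card_le l)
    omega
  set H := Subgroup.closure (Y ∪ ⋃ (j) (_ : j ≠ i), E j) with hH
  have hxH : ∀ x ∈ l, x ∈ H := by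
    intro x hxl
    have hne : φ x ≠ i := by
      intro h
      apply hi
      rw [← h]
      exact Finset.mem_image_of_mem _ (List.mem_toFinset.2 hxl)
    have hsub : Y ∪ E (φ x) ⊆ (H : Set G) := by
      intro y hy
      apply Subgroup.subset_closure
      rcases hy with hy | hy
      · exact Or.inl hy
      · right
        simp only [Set.mem_iUnion]
        exact ⟨φ x, hne, hy⟩
    rcases hφ x hxl with h | h
    · exact hsub h
    · exact (Subgroup.inv_mem_iff _).1 (hsub h)
  have hgH : (List.ofFn e).prod ∈ H := by
    rw [← hprod]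
    exact Subgroup.list_prod_mem _ hxH
  apply he2 i
  apply mem_of_prod_mem H n e i _ hgH
  intro j hj
  apply Subgroup.subset_closure
  right
  simp only [Set.mem_iUnion]
  exact ⟨j, hj, he1 j⟩

/-- A finite family of ultrafilters with generating products, all inside a small set. -/
theorem exists_Q {K : ℕ} {Y X : Set G} (hYX : Y ⊆ X) (hgen : Subgroup.closure X = ⊤)
    (hY : Subgroup.closure Y ≠ ⊤)
    (hfast : ∀ Z, Y ⊆ Z → Z ⊆ X → Subgroup.closure Z = ⊤ → Ball K Z = univ) :
    ∃ (n : ℕ) (E : Fin n → Set G) (q : Fin n → Ultrafilter G), (∀ i, E i ⊆ X) ∧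
      (∀ i, E i ∈ q i) ∧ ∀ A : Fin n → Set G, (∀ i, A i ∈ q i) →
        Subgroup.closure (Y ∪ ⋃ i, (A i ∩ E i)) = ⊤ := by
  have hbdd : BddAbove {n : ℕ | ∃ E, Irr Y X n E} :=
    ⟨K, fun n ⟨E, hE⟩ => Irr_le hYX hfast hE⟩
  have hne : {n : ℕ | ∃ E, Irr Y X n E}.Nonempty := by
    refine ⟨1, fun _ => X, fun _ => subset_rfl, ?_, ?_⟩
    · rw [eq_top_iff, ← hgen]
      apply Subgroup.closure_mono
      intro x hx
      exact Or.inr (Set.mem_iUnion.2 ⟨0, hx⟩)
    · intro i h
      apply hY
      rw [eq_top_iff, ← h]
      apply Subgroup.closure_mono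
      intro x hx
      rcases hx with hx | hx
      · exact hx
      · simp only [Set.mem_iUnion] at hx
        obtain ⟨j, hj, _⟩ := hx
        exact absurd (Subsingleton.elim j i) hj
  obtain ⟨n, ⟨E, hE⟩, hmax⟩ : ∃ n, (∃ E, Irr Y X n E) ∧ ∀ m, (∃ E, Irr Y X m E) → m ≤ n :=
    ⟨sSup _, Nat.sSup_mem hne hbdd, fun m hm => le_csSup hbdd hm⟩
  obtain ⟨hE1, hE2, hE3⟩ := hE
  have hsub3 : ∀ (i : Fin n) (A : Fin n → Set G), A i = ∅ →
      Subgroup.closure (Y ∪ ⋃ j, (A j ∩ E j)) ≠ ⊤ := by
    intro i A hA h
    apply hE3 i
    rw [eq_top_iff, ← h]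
    apply Subgroup.closure_mono
    intro x hx
    rcases hx with hx | hx
    · exact Or.inl hx
    · obtain ⟨j, hj⟩ := Set.mem_iUnion.1 hx
      by_cases hji : j = i
      · subst hji; rw [hA] at hj; exact hj.1.elim
      · right
        simp only [Set.mem_iUnion]
        exact ⟨j, hji, hj.2⟩
  obtain ⟨q, hq⟩ := exists_ultra (fun A : Fin n → Set G =>
      Subgroup.closure (Y ∪ ⋃ i, (A i ∩ E i)) = ⊤)
    (by
      intro A B hAB hA
      rw [eq_top_iff, ← hA]
      apply Subgroup.closure_mono
      apply union_subset_union_right
      apply iUnion_mono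
      intro i
      exact inter_subset_inter_left _ (hAB i))
    (by
      intro A i B C hBC
      by_contra hcon
      push Not at hcon
      obtain ⟨hB, hC⟩ := hcon
      have hbad : Irr Y X (n + 1)
          (Fin.cons (B ∩ E i) (fun j => Function.update A i C j ∩ E j)) := by
        refine ⟨?_, ?_, ?_⟩
        · intro j
          refine Fin.cases ?_ ?_ j
          · exact inter_subset_right.trans (hE1 i)
          · intro j'
            exact inter_subset_right.trans (hE1 j')
        · rw [eq_top_iff, ← hBC]
          apply Subgroup.closure_mono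
          apply union_subset_union_right
          apply iUnion_subset
          intro j x hx
          by_cases hji : j = i
          · subst hji
            rw [Function.update_self] at hx
            rcases hx.1 with h | h
            · exact Set.mem_iUnion.2 ⟨0, h, hx.2⟩
            · refine Set.mem_iUnion.2 ⟨j.succ, ?_⟩
              show x ∈ Function.update A j C j ∩ E j
              rw [Function.update_self]
              exact ⟨h, hx.2⟩
          · refine Set.mem_iUnion.2 ⟨j.succ, ?_⟩
            show x ∈ Function.update A i C j ∩ E j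
            rw [Function.update_of_ne hji] at hx ⊢
            exact hx
        · intro j
          refine Fin.cases ?_ ?_ j
          · intro h
            apply hC
            rw [eq_top_iff, ← h]
            apply Subgroup.closure_mono
            apply union_subset_union_right
            intro x hx
            simp only [Set.mem_iUnion] at hx
            obtain ⟨l, hl, hx⟩ := hx
            revert hl hx
            refine Fin.cases ?_ ?_ l
            · intro h; exact absurd rfl h
            · intro l' _ hx
              exact Set.mem_iUnion.2 ⟨l', hx⟩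
          · intro j' h
            by_cases hji : j' = i
            · subst hji
              apply hB
              rw [eq_top_iff, ← h]
              apply Subgroup.closure_mono
              apply union_subset_union_right
              intro x hx
              simp only [Set.mem_iUnion] at hx
              obtain ⟨l, hl, hx⟩ := hx
              revert hl hx
              refine Fin.cases ?_ ?_ l
              · intro _ hx
                refine Set.mem_iUnion.2 ⟨j', ?_⟩
                rw [Function.update_self]; exact hx
              · intro l' hl hx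
                have hne : l' ≠ j' := fun h => hl (by rw [h])
                refine Set.mem_iUnion.2 ⟨l', ?_⟩
                have hx' : x ∈ Function.update A j' C l' ∩ E l' := hx
                rw [Function.update_of_ne hne] at hx' ⊢
                exact hx'
            · apply hE3 j'
              rw [eq_top_iff, ← h]
              apply Subgroup.closure_mono
              apply union_subset_union_right
              intro x hx
              simp only [Set.mem_iUnion] at hx
              obtain ⟨l, hl, hx⟩ := hx
              revert hl hx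
              refine Fin.cases ?_ ?_ l
              · intro _ hx
                simp only [Set.mem_iUnion]
                exact ⟨i, fun h => hji h.symm, hx.2⟩
              · intro l' hl hx
                have hne : l' ≠ j' := fun h => hl (by rw [h])
                simp only [Set.mem_iUnion]
                exact ⟨l', hne, hx.2⟩
      have := hmax (n + 1) ⟨_, hbad⟩
      omega)
    (by
      show Subgroup.closure (Y ∪ ⋃ i, (univ ∩ E i)) = ⊤
      simp only [univ_inter]
      exact hE2)
    (by
      intro i
      exact hsub3 i _ (Function.update_self _ _ _))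
  refine ⟨n, E, q, hE1, ?_, hq⟩
  intro i
  by_contra hcon
  have h1 : (E i)ᶜ ∈ q i := Ultrafilter.compl_mem_iff_notMem.2 hcon
  have h2 := hq (Function.update (fun _ => univ) i ((E i)ᶜ)) (by
    intro j
    by_cases hji : j = i
    · subst hji; rw [Function.update_self]; exact h1
    · rw [Function.update_of_ne hji]; exact univ_mem)
  apply hE3 i
  rw [eq_top_iff, ← h2]
  apply Subgroup.closure_mono
  apply union_subset_union_right
  intro x hx
  obtain ⟨j, hj⟩ := Set.mem_iUnion.1 hx
  by_cases hji : j = i
  · subst hji
    rw [Function.update_self] at hj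
    exact absurd hj.2 hj.1
  · simp only [Set.mem_iUnion]
    exact ⟨j, hji, hj.2⟩

end Pool.Agent.Lib.MP_3a7344_al
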