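import Pool.Agent.Lib.MP_3a7344_al.Ball

set_option autoImplicit false

namespace Pool.Agent.Lib.MP_3a7344_al

open Set Filter
open scoped Classical

variable {G : Type} [Group G]

/-- Levels of `h`-free finite sets: level `n` survives `n` further generic unions. -/
def Lev (K : ℕ) (Y : Set G) (𝒯 : Set (Ultrafilter (Finset G))) (h : G) : ℕ → Set (Finset G)
  | 0 => {w | h ∉ BallF K Y w}
  | (n + 1) => {w | w ∈ Lev K Y 𝒯 h n ∧
      ∀ τ ∈ 𝒯, ∀ᶠ v in (τ : Filter (Finset G)), w ∪ v ∈ Lev K Y 𝒯 h n}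

/-- Union convolution of ultrafilters on finite sets. -/
noncomputable def conv (P τ : Ultrafilter (Finset G)) : Ultrafilter (Finset G) :=
  P.bind (fun w => τ.map (fun v => w ∪ v))

omit [Group G] in
lemma eventually_conv (P τ : Ultrafilter (Finset G)) (p : Finset G → Prop) :
    (∀ᶠ u in (conv P τ : Filter (Finset G)), p u) ↔
      ∀ᶠ w in (P : Filter (Finset G)), ∀ᶠ v in (τ : Filter (Finset G)), p (w ∪ v) :=
  Iff.rfl

lemma finite_bad (K : ℕ) {Y : Set G} (hY : Y.Finite) {𝒯 : Set (Ultrafilter (Finset G))}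
    (h𝒯 : 𝒯.Finite)
    (hcard : ∀ τ ∈ 𝒯, ∃ C : ℕ, ∀ᶠ w in (τ : Filter (Finset G)), w.card ≤ C) (n : ℕ) :
    ∀ P : Ultrafilter (Finset G), (∃ C : ℕ, ∀ᶠ w in (P : Filter (Finset G)), w.card ≤ C) →
    {h : G | ¬ ∀ᶠ w in (P : Filter (Finset G)), w ∈ Lev K Y 𝒯 h n}.Finite := by
  induction n with
  | zero =>
    intro P hP
    exact finite_bad_zero K hY P hP
  | succ n ih =>
    intro P hP
    have hsub : {h : G | ¬ ∀ᶠ w in (P : Filter (Finset G)), w ∈ Lev K Y 𝒯 h (n + 1)} ⊆
        {h : G | ¬ ∀ᶠ w in (P : Filter (Finset G)), w ∈ Lev K Y 𝒯 h n} ∪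
        ⋃ τ ∈ 𝒯, {h : G | ¬ ∀ᶠ u in (conv P τ : Filter (Finset G)), u ∈ Lev K Y 𝒯 h n} := by
      intro h hh
      by_contra hcon
      apply hh
      rw [Set.mem_union, not_or] at hcon
      obtain ⟨h1, h2⟩ := hcon
      have h1' : ∀ᶠ w in (P : Filter (Finset G)), w ∈ Lev K Y 𝒯 h n := by
        by_contra h3; exact h1 h3
      have h2' : ∀ τ ∈ 𝒯, ∀ᶠ w in (P : Filter (Finset G)),
          ∀ᶠ v in (τ : Filter (Finset G)), w ∪ v ∈ Lev K Y 𝒯 h n := by
        intro τ hτ
        by_contra h3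
        apply h2
        simp only [Set.mem_iUnion]
        exact ⟨τ, hτ, h3⟩
      have h2'' := (Filter.eventually_all_finite h𝒯).2 h2'
      filter_upwards [h1', h2''] with w hw1 hw2
      exact ⟨hw1, hw2⟩
    refine Set.Finite.subset ?_ hsub
    refine Set.Finite.union (ih P hP) ?_
    refine Set.Finite.biUnion h𝒯 ?_
    intro τ hτ
    apply ih
    obtain ⟨C, hC⟩ := hP
    obtain ⟨C', hC'⟩ := hcard τ hτ
    refine ⟨C + C', ?_⟩
    rw [eventually_conv]
    filter_upwards [hC] with w hw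
    filter_upwards [hC'] with v hv
    exact (Finset.card_union_le _ _).trans (Nat.add_le_add hw hv)

/-- Some target is avoided by all generic finite sets. -/
lemma exists_target [Infinite G] (K : ℕ) {Y : Set G} (hY : Y.Finite)
    {𝒯 : Set (Ultrafilter (Finset G))} (h𝒯 : 𝒯.Finite)
    (hcard : ∀ τ ∈ 𝒯, ∃ C : ℕ, ∀ᶠ w in (τ : Filter (Finset G)), w.card ≤ C) :
    ∃ h : G, ∅ ∈ Lev K Y 𝒯 h K := by
  have hfin := finite_bad K hY h𝒯 hcard K (pure ∅) ⟨0, by
    show ∀ᶠ w in (pure (∅ : Finset G) : Filter (Finset G)), w.card ≤ 0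
    rw [Filter.eventually_pure]; simp⟩
  obtain ⟨h, hh⟩ := hfin.exists_notMem
  refine ⟨h, ?_⟩
  have : ∀ᶠ w in ((pure (∅ : Finset G) : Ultrafilter (Finset G)) : Filter (Finset G)),
      w ∈ Lev K Y 𝒯 h K := by
    by_contra h3; exact hh h3
  exact Filter.eventually_pure.1 (show ∀ᶠ w in (pure (∅ : Finset G) : Filter (Finset G)),
      w ∈ Lev K Y 𝒯 h K from this)

omit [Group G] in
/-- The generic construction: blocks chosen one after the other. -/
theorem extend {ι : Type} [Fintype ι] (K : ℕ) (Good : ℕ → Set (Finset G))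
    (hmono : ∀ s, Good s ⊆ Good (s + 1)) (h0 : ∅ ∈ Good 0)
    (𝒯 : Set (Ultrafilter (Finset G)))
    (hstep : ∀ s, s < K → ∀ w ∈ Good s, ∀ τ ∈ 𝒯,
      ∀ᶠ v in (τ : Filter (Finset G)), w ∪ v ∈ Good (s + 1))
    (ρ : ℕ → Ultrafilter (ι → G))
    (hρ : ∀ n, ∀ S : Finset ι, S.card ≤ K → (ρ n).map (fun z => S.image z) ∈ 𝒯)
    (P : ℕ → Finset G → (ι → G) → Prop)
    (hP : ∀ n T, ∀ᶠ z in (ρ n : Filter (ι → G)), P n T z) :
    ∃ (z : ℕ → ι → G) (T : ℕ → Finset G), T 0 = ∅ ∧
      (∀ n, T (n + 1) = T n ∪ Finset.univ.image (z n)) ∧ (∀ n, P n (T n) (z n)) ∧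
      ∀ n, ∀ w ⊆ T n, w.card ≤ K → w ∈ Good w.card := by
  have hmono' : ∀ s t, s ≤ t → Good s ⊆ Good t := by
    intro s t hst
    induction hst with
    | refl => exact subset_rfl
    | step _ ih => exact ih.trans (hmono _)
  -- the step
  have key : ∀ (n : ℕ) (T : Finset G), (∀ w ⊆ T, w.card ≤ K → w ∈ Good w.card) →
      ∃ z : ι → G, P n T z ∧
        ∀ w ⊆ T ∪ Finset.univ.image z, w.card ≤ K → w ∈ Good w.card := by
    intro n T hT
    have hev : ∀ᶠ z in (ρ n : Filter (ι → G)), ∀ w ∈ T.powerset, ∀ S ∈ (Finset.univ : Finset (Finset ι)),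
        w.card < K → S.card ≤ K → w ∪ S.image z ∈ Good (w.card + 1) := by
      rw [Filter.eventually_all_finset]
      intro w hw
      rw [Filter.eventually_all_finset]
      intro S _
      by_cases hc : w.card < K ∧ S.card ≤ K
      · have h1 := hstep w.card hc.1 w (hT w (Finset.mem_powerset.1 hw) hc.1.le) _ (hρ n S hc.2)
        have h2 : ∀ᶠ z in (ρ n : Filter (ι → G)), w ∪ S.image z ∈ Good (w.card + 1) := h1
        filter_upwards [h2] with z hz _ _
        exact hz
      · exact Filter.Eventually.of_forall (fun z h1 h2 => absurd ⟨h1, h2⟩ hc)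
    obtain ⟨z, hz1, hz2⟩ := ((hP n T).and hev).exists
    refine ⟨z, hz1, ?_⟩
    intro w' hw' hcard
    set v : Finset G := w' ∩ Finset.univ.image z with hv
    set w : Finset G := w' \ Finset.univ.image z with hw
    have hwT : w ⊆ T := by
      intro x hx
      rw [hw, Finset.mem_sdiff] at hx
      rcases Finset.mem_union.1 (hw' hx.1) with h | h
      · exact h
      · exact absurd h hx.2
    have hunion : w ∪ v = w' := by
      rw [hw, hv]; exact Finset.sdiff_union_inter _ _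
    have hcards : w.card + v.card = w'.card := by
      rw [hw, hv]; exact Finset.card_sdiff_add_card_inter _ _
    rcases Finset.eq_empty_or_nonempty v with hv0 | hv0
    · rw [hv0, Finset.union_empty] at hunion
      rw [← hunion] at hcard ⊢
      exact hT w hwT hcard
    · have hvpos : 0 < v.card := Finset.card_pos.2 hv0
      obtain ⟨S, hS1, hS2⟩ : ∃ S : Finset ι, S.image z = v ∧ S.card = v.card := by
        have hvsub : v ⊆ Finset.univ.image z := Finset.inter_subset_right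
        have hpre : ∀ x : G, ∃ i : ι, x ∈ v → z i = x := by
          intro x
          by_cases hx : x ∈ v
          · obtain ⟨i, _, hi⟩ := Finset.mem_image.1 (hvsub hx)
            exact ⟨i, fun _ => hi⟩
          · obtain ⟨x0, hx0⟩ := hv0
            obtain ⟨i, _, hi⟩ := Finset.mem_image.1 (hvsub hx0)
            exact ⟨i, fun h => absurd h hx⟩
        choose g hg using hpre
        refine ⟨v.image g, ?_, ?_⟩
        · ext x
          simp only [Finset.mem_image]
          constructor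
          · rintro ⟨i, ⟨y, hy, rfl⟩, rfl⟩
            rw [hg y hy]; exact hy
          · intro hx
            exact ⟨g x, ⟨x, hx, rfl⟩, hg x hx⟩
        · apply Finset.card_image_of_injOn
          intro x hx y hy hxy
          rw [← hg x hx, ← hg y hy]
          exact congrArg z hxy
      have h3 := hz2 w (Finset.mem_powerset.2 hwT) S (Finset.mem_univ _) (by omega) (by omega)
      rw [hS1, hunion] at h3
      exact hmono' _ _ (by omega) h3
  let St := {T : Finset G // ∀ w ⊆ T, w.card ≤ K → w ∈ Good w.card}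
  let s0 : St := ⟨∅, by
    intro w hw _
    rw [Finset.subset_empty.1 hw, Finset.card_empty]
    exact h0⟩
  choose nz hnz1 hnz2 using fun (n : ℕ) (T : St) => key n T.1 T.2
  let seq : ℕ → St := fun n => Nat.rec s0 (fun n T => ⟨T.1 ∪ Finset.univ.image (nz n T), hnz2 n T⟩) n
  refine ⟨fun n => nz n (seq n), fun n => (seq n).1, ?_, fun n => rfl, fun n => hnz1 n (seq n),
    fun n => (seq n).2⟩
  rfl

lemma Lev_succ_subset (K : ℕ) (Y : Set G) (𝒯 : Set (Ultrafilter (Finset G))) (h : G) (n : ℕ) :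
    Lev K Y 𝒯 h (n + 1) ⊆ Lev K Y 𝒯 h n := fun _ hw => hw.1

lemma Lev_anti (K : ℕ) (Y : Set G) (𝒯 : Set (Ultrafilter (Finset G))) (h : G) {n m : ℕ}
    (hnm : n ≤ m) : Lev K Y 𝒯 h m ⊆ Lev K Y 𝒯 h n := by
  induction hnm with
  | refl => exact subset_rfl
  | step _ ih => exact (Lev_succ_subset K Y 𝒯 h _).trans ih

/-- A generic sequence of blocks with finitely many types of small parts misses some target. -/
theorem avoid [Infinite G] (K : ℕ) {Y : Set G} (hY : Y.Finite) {ι : Type} [Fintype ι]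
    (ρ : ℕ → Ultrafilter (ι → G))
    (hfin : {τ : Ultrafilter (Finset G) | ∃ n, ∃ S : Finset ι, S.card ≤ K ∧
      τ = (ρ n).map (fun z => S.image z)}.Finite)
    (P : ℕ → Finset G → (ι → G) → Prop)
    (hP : ∀ n T, ∀ᶠ z in (ρ n : Filter (ι → G)), P n T z) :
    ∃ (z : ℕ → ι → G) (T : ℕ → Finset G), T 0 = ∅ ∧
      (∀ n, T (n + 1) = T n ∪ Finset.univ.image (z n)) ∧ (∀ n, P n (T n) (z n)) ∧
      ∃ h, h ∉ Ball K ((⋃ n, (↑(T n) : Set G)) ∪ Y) := by
  set 𝒯 : Set (Ultrafilter (Finset G)) := {τ : Ultrafilter (Finset G) | ∃ n, ∃ S : Finset ι,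
    S.card ≤ K ∧ τ = (ρ n).map (fun z => S.image z)} with h𝒯
  have hcard : ∀ τ ∈ 𝒯, ∃ C : ℕ, ∀ᶠ w in (τ : Filter (Finset G)), w.card ≤ C := by
    rintro τ ⟨n, S, hS, rfl⟩
    refine ⟨S.card, ?_⟩
    show ∀ᶠ z in (ρ n : Filter (ι → G)), (S.image z).card ≤ S.card
    exact Filter.Eventually.of_forall (fun z => Finset.card_image_le)
  obtain ⟨h, hh⟩ := exists_target K hY hfin hcard
  obtain ⟨z, T, hT0, hTs, hTP, hTg⟩ := extend K (fun s => Lev K Y 𝒯 h (K - s))
    (fun s => Lev_anti K Y 𝒯 h (by omega)) (by simpa using hh) 𝒯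
    (by
      intro s hs w hw τ hτ
      have e : K - s = (K - (s + 1)) + 1 := by omega
      have hw' : w ∈ Lev K Y 𝒯 h (K - s) := hw
      rw [e] at hw'
      exact hw'.2 τ hτ) ρ (fun n S hS => ⟨n, S, hS, rfl⟩) P hP
  refine ⟨z, T, hT0, hTs, hTP, h, ?_⟩
  rintro ⟨l, hl, hx, hprod⟩
  have hTmono : Monotone T := by
    apply monotone_nat_of_le_succ
    intro n
    rw [hTs n]
    exact Finset.subset_union_left
  set U : Set G := ⋃ n, (↑(T n) : Set G) with hU
  set base : G → G := fun x => if x ∈ U ∪ Y then x else x⁻¹ with hbase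
  have hb : ∀ x ∈ l, base x ∈ U ∪ Y ∧ (x = base x ∨ x = (base x)⁻¹) := by
    intro x hxl
    by_cases hxU : x ∈ U ∪ Y
    · have : base x = x := by simp only [hbase]; rw [if_pos hxU]
      rw [this]; exact ⟨hxU, Or.inl rfl⟩
    · have h1 : base x = x⁻¹ := by simp only [hbase]; rw [if_neg hxU]
      rw [h1, inv_inv]
      exact ⟨(hx x hxl).resolve_left hxU, Or.inr rfl⟩
  set w : Finset G := (l.toFinset.image base).filter (fun x => x ∈ U) with hw
  have hwcard : w.card ≤ K := by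
    calc w.card ≤ (l.toFinset.image base).card := Finset.card_filter_le _ _
      _ ≤ l.toFinset.card := Finset.card_image_le
      _ ≤ l.length := List.toFinset_card_le l
      _ ≤ K := hl
  obtain ⟨N, hN⟩ : ∃ N, w ⊆ T N := by
    have h3 : ∀ x : G, ∃ n, x ∈ w → x ∈ T n := by
      intro x
      by_cases hxw : x ∈ w
      · have h4 := (Finset.mem_filter.1 hxw).2
        rw [hU, Set.mem_iUnion] at h4
        obtain ⟨n, hn⟩ := h4
        exact ⟨n, fun _ => hn⟩
      · exact ⟨0, fun h => absurd h hxw⟩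
    choose f hf using h3
    exact ⟨w.sup f, fun x hxw => hTmono (Finset.le_sup hxw) (hf x hxw)⟩
  have h1 := hTg N w hN hwcard
  have h2 : w ∈ Lev K Y 𝒯 h 0 := Lev_anti K Y 𝒯 h (Nat.zero_le _) h1
  apply h2
  refine ⟨l, hl, ?_, hprod⟩
  intro x hxl
  obtain ⟨h3, h4⟩ := hb x hxl
  have h5 : base x ∈ (↑w : Set G) ∪ Y := by
    rcases h3 with h3 | h3
    · left
      show base x ∈ w
      rw [hw, Finset.mem_filter]
      exact ⟨Finset.mem_image_of_mem _ (List.mem_toFinset.2 hxl), h3⟩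
    · exact Or.inr h3
  rcases h4 with h4 | h4
  · left; rw [h4]; exact h5
  · right; rw [h4, inv_inv]; exact h5

end Pool.Agent.Lib.MP_3a7344_al
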