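import Pool.Agent.Lib.MP_3a7344_al.Ball

set_option autoImplicit false

namespace Pool.Agent.Lib.MP_3a7344_al

open Set Filter
open scoped Classical

/-- Iterated product of ultrafilters. -/
noncomputable def tens {β : Type} : (n : ℕ) → (Fin n → Ultrafilter β) → Ultrafilter (Fin n → β)
  | 0, _ => pure (fun i => i.elim0)
  | (n + 1), u => (u 0).bind (fun x => (tens n (fun i => u i.succ)).map (fun f => Fin.cons x f))

lemma eventually_tens_succ {β : Type} (n : ℕ) (u : Fin (n + 1) → Ultrafilter β)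
    (p : (Fin (n + 1) → β) → Prop) :
    (∀ᶠ f in (tens (n + 1) u : Filter (Fin (n + 1) → β)), p f) ↔
      ∀ᶠ x in (u 0 : Filter β), ∀ᶠ f in (tens n (fun i => u i.succ) : Filter (Fin n → β)),
        p (Fin.cons x f) := Iff.rfl

lemma eventually_tens_forall {β : Type} (n : ℕ) (u : Fin n → Ultrafilter β)
    (p : Fin n → β → Prop) (h : ∀ a, ∀ᶠ x in (u a : Filter β), p a x) :
    ∀ᶠ f in (tens n u : Filter (Fin n → β)), ∀ a, p a (f a) := by
  induction n with
  | zero =>
    exact Filter.Eventually.of_forall (fun f a => a.elim0)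
  | succ n ih =>
    rw [eventually_tens_succ]
    filter_upwards [h 0] with x hx
    filter_upwards [ih (fun i => u i.succ) (fun a => p a.succ) (fun a => h a.succ)] with f hf
    intro a
    refine Fin.cases ?_ ?_ a
    · simpa using hx
    · intro i; simpa using hf i

/-- Two ultrafilters on `ι → G` agree on the events depending on `S` only. -/
def Eqv {G ι : Type} (S : Set ι) (u v : Ultrafilter (ι → G)) : Prop :=
  ∀ E : (ι → G) → Prop, (∀ z z' : ι → G, (∀ i ∈ S, z i = z' i) → (E z ↔ E z')) →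
    ((∀ᶠ z in (u : Filter (ι → G)), E z) ↔ ∀ᶠ z in (v : Filter (ι → G)), E z)

lemma Eqv.refl {G ι : Type} (S : Set ι) (u : Ultrafilter (ι → G)) : Eqv S u u :=
  fun _ _ => Iff.rfl

lemma tens_eqv {G ι : Type} (n : ℕ) : ∀ (u v : Fin n → Ultrafilter (ι → G)) (S : Fin n → Set ι),
    (∀ a, Eqv (S a) (u a) (v a)) → ∀ E : (Fin n → ι → G) → Prop,
    (∀ f f' : Fin n → ι → G, (∀ a, ∀ i ∈ S a, f a i = f' a i) → (E f ↔ E f')) →
    ((∀ᶠ f in (tens n u : Filter (Fin n → ι → G)), E f) ↔
      ∀ᶠ f in (tens n v : Filter (Fin n → ι → G)), E f) := by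
  induction n with
  | zero => intro u v S h E hE; exact Iff.rfl
  | succ n ih =>
    intro u v S h E hE
    rw [eventually_tens_succ, eventually_tens_succ]
    have h1 : ∀ x : ι → G, ((∀ᶠ f in (tens n (fun i => u i.succ) : Filter (Fin n → ι → G)),
        E (Fin.cons x f)) ↔ ∀ᶠ f in (tens n (fun i => v i.succ) : Filter (Fin n → ι → G)),
        E (Fin.cons x f)) := by
      intro x
      apply ih (fun i => u i.succ) (fun i => v i.succ) (fun a => S a.succ) (fun a => h a.succ)
      intro f f' hf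
      apply hE
      intro a
      refine Fin.cases ?_ ?_ a
      · intro i _; rfl
      · intro b i hi
        simpa using hf b i hi
    have h2 := h 0 (fun x => ∀ᶠ f in (tens n (fun i => v i.succ) : Filter (Fin n → ι → G)),
        E (Fin.cons x f)) (by
      intro z z' hz
      have : ∀ f : Fin n → ι → G, E (Fin.cons z f) ↔ E (Fin.cons z' f) := by
        intro f
        apply hE
        intro a
        refine Fin.cases ?_ ?_ a
        · intro i hi; simpa using hz i hi
        · intro b i hi; simp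
      simp only [this])
    rw [← h2]
    simp only [h1]

variable {G : Type} [Group G]

/-- The refinement of a family of block ultrafilters. -/
noncomputable def refine' {k : ℕ} (r : G → Ultrafilter (Fin k → G)) {ι : Type}
    (ρ : G → Ultrafilter (ι → G)) (d : G) : Ultrafilter (Fin k × ι → G) :=
  (r d).bind (fun y => (tens k (fun a => ρ (y a))).map (fun f => fun p => f p.1 p.2))

omit [Group G] in
lemma eventually_refine {k : ℕ} (r : G → Ultrafilter (Fin k → G)) {ι : Type}
    (ρ : G → Ultrafilter (ι → G)) (d : G) (p : (Fin k × ι → G) → Prop) :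
    (∀ᶠ z in (refine' r ρ d : Filter (Fin k × ι → G)), p z) ↔
      ∀ᶠ y in (r d : Filter (Fin k → G)),
        ∀ᶠ f in (tens k (fun a => ρ (y a)) : Filter (Fin k → ι → G)), p (fun q => f q.1 q.2) :=
  Iff.rfl

/-- Marginals on at most `M` coordinates take finitely many values. -/
def Unif (M : ℕ) {ι : Type} (ρ : G → Ultrafilter (ι → G)) : Prop :=
  ∃ (Γ : Type) (_ : Finite Γ) (κ : G → Γ), ∀ d d', κ d = κ d' →
    ∀ S : Finset ι, S.card ≤ M → Eqv (↑S : Set ι) (ρ d) (ρ d')

omit [Group G] in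
lemma Unif.mono {M N : ℕ} (h : N ≤ M) {ι : Type} {ρ : G → Ultrafilter (ι → G)}
    (hρ : Unif M ρ) : Unif N ρ := by
  obtain ⟨Γ, hΓ, κ, hκ⟩ := hρ
  exact ⟨Γ, hΓ, κ, fun d d' hd S hS => hκ d d' hd S (hS.trans h)⟩

omit [Group G] in
theorem Unif.refine {k : ℕ} (r : G → Ultrafilter (Fin (k + 1) → G))
    (c : G → Fin (k + 1) → Ultrafilter G)
    (hc : ∀ d a, (r d).map (fun y => y a) = c d a) (hfin : (Set.range c).Finite)
    {M : ℕ} {ι : Type} {ρ : G → Ultrafilter (ι → G)} (hρ : Unif M ρ) :
    Unif (2 * M + 1) (refine' r ρ) := by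
  obtain ⟨Γ, hΓ, κ, hκ⟩ := hρ
  refine ⟨Set.range c, hfin.to_subtype, fun d => ⟨c d, ⟨d, rfl⟩⟩, ?_⟩
  intro d d' hdd' S hS E hE
  have hcc : c d = c d' := congrArg Subtype.val hdd'
  -- the slices of `S`
  set Sa : Fin (k + 1) → Finset ι := fun a => (S.filter (fun p => p.1 = a)).image Prod.snd with hSa
  have hSacard : ∀ a, (Sa a).card ≤ (S.filter (fun p => p.1 = a)).card :=
    fun a => Finset.card_image_le
  have hpair : ∀ a b, a ≠ b → (Sa a).card + (Sa b).card ≤ S.card := by
    intro a b hab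
    calc (Sa a).card + (Sa b).card ≤ (S.filter (fun p => p.1 = a)).card +
          (S.filter (fun p => p.1 = b)).card := Nat.add_le_add (hSacard a) (hSacard b)
      _ = ((S.filter (fun p => p.1 = a)) ∪ (S.filter (fun p => p.1 = b))).card := by
          rw [Finset.card_union_of_disjoint]
          rw [Finset.disjoint_left]
          intro x hx hx'
          rw [Finset.mem_filter] at hx hx'
          exact hab (hx.2.symm.trans hx'.2)
      _ ≤ S.card := Finset.card_le_card
          (Finset.union_subset (Finset.filter_subset _ _) (Finset.filter_subset _ _))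
  obtain ⟨a₀, ha₀⟩ : ∃ a₀, ∀ a, a ≠ a₀ → (Sa a).card ≤ M := by
    by_cases h : ∃ a₀, M < (Sa a₀).card
    · obtain ⟨a₀, h0⟩ := h
      refine ⟨a₀, fun a ha => ?_⟩
      have := hpair a a₀ ha
      omega
    · push Not at h
      exact ⟨0, fun a _ => h a⟩
  -- representatives
  have hrep : ∀ a, ∃ e : G, ∀ᶠ x in (c d a : Filter G), κ x = κ e := by
    intro a
    obtain ⟨γ, hγ⟩ := ev_const (c d a) κ
    obtain ⟨e, he⟩ := hγ.exists
    refine ⟨e, ?_⟩
    rw [he]; exact hγ
  choose e he using hrep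
  set Θ : G → Ultrafilter (Fin (k + 1) → ι → G) := fun x =>
    tens (k + 1) (fun a => if a = a₀ then ρ x else ρ (e a)) with hΘ
  set E' : (Fin (k + 1) → ι → G) → Prop := fun f => E (fun q => f q.1 q.2) with hE'
  have hE'm : ∀ f f' : Fin (k + 1) → ι → G, (∀ a, ∀ i ∈ (↑(Sa a) : Set ι), f a i = f' a i) →
      (E' f ↔ E' f') := by
    intro f f' hf
    apply hE
    rintro ⟨a, i⟩ hi
    apply hf a i
    show i ∈ Sa a
    rw [hSa]
    exact Finset.mem_image.2 ⟨(a, i), Finset.mem_filter.2 ⟨hi, rfl⟩, rfl⟩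
  have main : ∀ d₁, c d₁ = c d → ((∀ᶠ z in (refine' r ρ d₁ : Filter (Fin (k + 1) × ι → G)), E z) ↔
      ∀ᶠ x in (c d a₀ : Filter G), ∀ᶠ f in (Θ x : Filter (Fin (k + 1) → ι → G)), E' f) := by
    intro d₁ hd₁
    rw [eventually_refine]
    have hev : ∀ᶠ y in (r d₁ : Filter (Fin (k + 1) → G)), ∀ a, κ (y a) = κ (e a) := by
      rw [Filter.eventually_all]
      intro a
      have h1 := he a
      rw [← hd₁, ← hc d₁ a] at h1
      exact h1
    have hswitch : ∀ y : Fin (k + 1) → G, (∀ a, κ (y a) = κ (e a)) →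
        ((∀ᶠ f in (tens (k + 1) (fun a => ρ (y a)) : Filter (Fin (k + 1) → ι → G)), E' f) ↔
          ∀ᶠ f in (Θ (y a₀) : Filter (Fin (k + 1) → ι → G)), E' f) := by
      intro y hy
      apply tens_eqv (k + 1) _ _ (fun a => (↑(Sa a) : Set ι)) _ E' hE'm
      intro a
      by_cases ha : a = a₀
      · subst ha
        rw [if_pos rfl]
        exact Eqv.refl _ _
      · rw [if_neg ha]
        exact hκ _ _ (hy a) _ (ha₀ a ha)
    have h3 : (∀ᶠ y in (r d₁ : Filter (Fin (k + 1) → G)),
        ∀ᶠ f in (tens (k + 1) (fun a => ρ (y a)) : Filter (Fin (k + 1) → ι → G)), E' f) ↔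
        ∀ᶠ y in (r d₁ : Filter (Fin (k + 1) → G)),
          ∀ᶠ f in (Θ (y a₀) : Filter (Fin (k + 1) → ι → G)), E' f := by
      apply Filter.eventually_congr
      filter_upwards [hev] with y hy
      exact hswitch y hy
    refine h3.trans ?_
    rw [← hd₁, ← hc d₁ a₀]
    rfl
  rw [main d rfl, main d' hcc.symm]

lemma refine_gen {k : ℕ} (r : G → Ultrafilter (Fin (k + 1) → G))
    (hgen : ∀ d, ∀ᶠ y in (r d : Filter (Fin (k + 1) → G)), d ∈ Subgroup.closure (Set.range y))
    {ι : Type} {ρ : G → Ultrafilter (ι → G)}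
    (hρ : ∀ d, ∀ᶠ z in (ρ d : Filter (ι → G)), d ∈ Subgroup.closure (Set.range z)) (d : G) :
    ∀ᶠ z in (refine' r ρ d : Filter (Fin (k + 1) × ι → G)), d ∈ Subgroup.closure (Set.range z) := by
  rw [eventually_refine]
  filter_upwards [hgen d] with y hy
  have h1 := eventually_tens_forall (k + 1) (fun a => ρ (y a))
    (fun a z => y a ∈ Subgroup.closure (Set.range z)) (fun a => hρ (y a))
  filter_upwards [h1] with f hf
  have h2 : Subgroup.closure (Set.range y) ≤
      Subgroup.closure (Set.range (fun q : Fin (k + 1) × ι => f q.1 q.2)) := by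
    rw [Subgroup.closure_le]
    rintro _ ⟨a, rfl⟩
    have h3 : Subgroup.closure (Set.range (f a)) ≤
        Subgroup.closure (Set.range (fun q : Fin (k + 1) × ι => f q.1 q.2)) := by
      apply Subgroup.closure_mono
      rintro _ ⟨i, rfl⟩
      exact ⟨(a, i), rfl⟩
    exact h3 (hf a)
  exact h2 hy

omit [Group G] in
lemma refine_mem {k : ℕ} (r : G → Ultrafilter (Fin (k + 1) → G)) (X : Set G)
    (hX : ∀ d, ∀ᶠ y in (r d : Filter (Fin (k + 1) → G)), ∀ a, y a ∈ X)
    {ι : Type} {ρ : G → Ultrafilter (ι → G)}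
    (hρ : ∀ d ∈ X, ∀ᶠ z in (ρ d : Filter (ι → G)), ∀ i, z i ∈ X) (d : G) :
    ∀ᶠ z in (refine' r ρ d : Filter (Fin (k + 1) × ι → G)), ∀ i, z i ∈ X := by
  rw [eventually_refine]
  filter_upwards [hX d] with y hy
  have h1 := eventually_tens_forall (k + 1) (fun a => ρ (y a))
    (fun a z => ∀ i, z i ∈ X) (fun a => hρ (y a) (hy a))
  filter_upwards [h1] with f hf
  intro q
  exact hf q.1 q.2

theorem exists_unif {k : ℕ} (r : G → Ultrafilter (Fin (k + 1) → G))
    (c : G → Fin (k + 1) → Ultrafilter G)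
    (hc : ∀ d a, (r d).map (fun y => y a) = c d a) (hfin : (Set.range c).Finite)
    (hgen : ∀ d, ∀ᶠ y in (r d : Filter (Fin (k + 1) → G)), d ∈ Subgroup.closure (Set.range y))
    (X : Set G) (hX : ∀ d, ∀ᶠ y in (r d : Filter (Fin (k + 1) → G)), ∀ a, y a ∈ X) (M : ℕ) :
    ∃ (ι : Type) (_ : Fintype ι) (ρ : G → Ultrafilter (ι → G)), Unif (M + 1) ρ ∧
      (∀ d, ∀ᶠ z in (ρ d : Filter (ι → G)), d ∈ Subgroup.closure (Set.range z)) ∧
      (∀ d, ∀ᶠ z in (ρ d : Filter (ι → G)), ∀ i, z i ∈ X) := by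
  induction M with
  | zero =>
    refine ⟨Fin (k + 1) × Unit, inferInstance,
      refine' r (fun d => (pure (fun _ => d) : Ultrafilter (Unit → G))), ?_, ?_, ?_⟩
    · refine (Unif.refine r c hc hfin (M := 0) ?_)
      refine ⟨Unit, inferInstance, fun _ => (), ?_⟩
      intro d d' _ S hS E hE
      have hS0 : S = ∅ := Finset.card_eq_zero.1 (Nat.le_zero.1 hS)
      have hall : ∀ z z' : Unit → G, E z ↔ E z' := by
        intro z z'
        apply hE
        intro i hi
        rw [hS0] at hi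
        simp at hi
      by_cases h : E (fun _ => d)
      · have : ∀ z, E z := fun z => (hall _ z).1 h
        exact iff_of_true (Filter.Eventually.of_forall this) (Filter.Eventually.of_forall this)
      · have : ∀ z, ¬ E z := fun z hz => h ((hall z _).1 hz)
        constructor
        · intro h1; obtain ⟨z, hz⟩ := h1.exists; exact absurd hz (this z)
        · intro h1; obtain ⟨z, hz⟩ := h1.exists; exact absurd hz (this z)
    · apply refine_gen r hgen
      intro d
      show ∀ᶠ z in (pure (fun _ => d) : Filter (Unit → G)), d ∈ Subgroup.closure (Set.range z)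
      rw [Filter.eventually_pure]
      exact Subgroup.subset_closure ⟨(), rfl⟩
    · apply refine_mem r X hX
      intro d hd
      show ∀ᶠ z in (pure (fun _ => d) : Filter (Unit → G)), ∀ i, z i ∈ X
      rw [Filter.eventually_pure]
      exact fun _ => hd
  | succ M ih =>
    obtain ⟨ι, hι, ρ, h1, h2, h3⟩ := ih
    exact ⟨Fin (k + 1) × ι, inferInstance, refine' r ρ,
      (Unif.refine r c hc hfin h1).mono (by omega), refine_gen r hgen h2,
      refine_mem r X hX (fun d _ => h3 d)⟩

end Pool.Agent.Lib.MP_3a7344_al
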