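import Pool.Agent.Lib.MP_3a7344_al.Ultra

set_option autoImplicit false

namespace Pool.Agent.Lib.MP_3a7344_al

open Set Filter
open scoped Classical

variable {G : Type} [Group G]

lemma tuple_of_ball {K : ℕ} {Z : Set G} (hZ : Z.Nonempty) {d : G} (hd : d ∈ Ball K Z) :
    ∃ y : Fin (K + 1) → G, (∀ a, y a ∈ Z) ∧ d ∈ Subgroup.closure (Set.range y) := by
  obtain ⟨l, hl, hx, rfl⟩ := hd
  obtain ⟨z0, hz0⟩ := hZ
  have hb : ∀ x : G, ∃ b ∈ Z, x ∈ l → (x = b ∨ x = b⁻¹) := by
    intro x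
    by_cases hxl : x ∈ l
    · rcases hx x hxl with h | h
      · exact ⟨x, h, fun _ => Or.inl rfl⟩
      · exact ⟨x⁻¹, h, fun _ => Or.inr (inv_inv x).symm⟩
    · exact ⟨z0, hz0, fun h => absurd h hxl⟩
  choose b hbZ hb using hb
  refine ⟨fun a => if h : (a : ℕ) < l.length then b (l[(a : ℕ)]) else z0, ?_, ?_⟩
  · intro a
    by_cases h : (a : ℕ) < l.length
    · simp only [h, dif_pos]; exact hbZ _
    · simp only [h, dif_neg, not_false_eq_true]; exact hz0
  · apply Subgroup.list_prod_mem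
    intro x hxl
    obtain ⟨i, hi, hix⟩ := List.getElem_of_mem hxl
    have h1 : b x ∈ Subgroup.closure (Set.range (fun a : Fin (K + 1) =>
        if h : (a : ℕ) < l.length then b (l[(a : ℕ)]) else z0)) := by
      apply Subgroup.subset_closure
      refine ⟨⟨i, by omega⟩, ?_⟩
      simp only [hi, dif_pos]
      rw [hix]
    rcases hb x hxl with h | h
    · rw [h]; exact h1
    · rw [h]; exact inv_mem h1

/-- Generic decomposition of every element with one-variable marginals in a finite set. -/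
theorem exists_r (k : ℕ) (𝒬 : Set (Ultrafilter G)) (h𝒬 : 𝒬.Finite)
    (hcover : ∀ A : Ultrafilter G → Set G, (∀ q ∈ 𝒬, A q ∈ q) → ∀ d : G,
      ∃ y : Fin k → G, (∀ a, ∃ q ∈ 𝒬, y a ∈ A q) ∧ d ∈ Subgroup.closure (Set.range y)) :
    ∃ (r : G → Ultrafilter (Fin k → G)) (c : G → Fin k → Ultrafilter G),
      (∀ d a, c d a ∈ 𝒬) ∧ (∀ d a, (r d).map (fun y => y a) = c d a) ∧
      (∀ d, ∀ᶠ y in (r d : Filter (Fin k → G)), d ∈ Subgroup.closure (Set.range y)) := by
  have hmain : ∀ d : G, ∃ c : Fin k → Ultrafilter G, (∀ a, c a ∈ 𝒬) ∧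
      ∀ A : Fin k → Set G, (∀ a, A a ∈ c a) →
        ∃ y : Fin k → G, (∀ a, y a ∈ A a) ∧ d ∈ Subgroup.closure (Set.range y) := by
    intro d
    by_contra hcon
    push Not at hcon
    have hfin : Finite (Fin k → 𝒬) := by
      have := h𝒬.to_subtype
      infer_instance
    have h1 : ∀ c : Fin k → 𝒬, ∃ A : Fin k → Set G, (∀ a, A a ∈ (c a : Ultrafilter G)) ∧
        ∀ y : Fin k → G, (∀ a, y a ∈ A a) → d ∉ Subgroup.closure (Set.range y) :=
      fun c => hcon (fun a => c a) (fun a => (c a).2)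
    choose A hA1 hA2 using h1
    obtain ⟨y, hy1, hy2⟩ := hcover (fun q => ⋂ c : Fin k → 𝒬, ⋂ a : Fin k,
        ⋂ _ : (c a : Ultrafilter G) = q, A c a) (by
      intro q _
      rw [← Ultrafilter.mem_coe, Filter.iInter_mem]
      intro c
      rw [Filter.iInter_mem]
      intro a
      rw [Filter.iInter_mem]
      intro hca
      rw [← hca]
      exact hA1 c a) d
    choose q hq1 hq2 using hy1
    apply hA2 (fun a => ⟨q a, hq1 a⟩) y _ hy2
    intro a
    have := hq2 a
    simp only [Set.mem_iInter] at this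
    exact this (fun a => ⟨q a, hq1 a⟩) a rfl
  choose c hc1 hc2 using hmain
  let F : G → Filter (Fin k → G) := fun d =>
    Filter.pi (fun a => (c d a : Filter G)) ⊓ 𝓟 {y | d ∈ Subgroup.closure (Set.range y)}
  have hF : ∀ d, (F d).NeBot := by
    intro d
    rw [Filter.inf_principal_neBot_iff]
    intro U hU
    rw [Filter.mem_pi] at hU
    obtain ⟨I, hI, t, ht, hsub⟩ := hU
    obtain ⟨y, hy1, hy2⟩ := hc2 d t ht
    refine ⟨y, hsub ?_, hy2⟩
    intro a _
    exact hy1 a
  refine ⟨fun d => @Ultrafilter.of _ (F d) (hF d), c, hc1, ?_, ?_⟩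
  · intro d a
    have := hF d
    apply Ultrafilter.eq_of_le
    intro B hB
    have h1 : {y : Fin k → G | y a ∈ B} ∈ Filter.pi (fun a => (c d a : Filter G)) :=
      (Filter.tendsto_eval_pi (fun a => (c d a : Filter G)) a) hB
    have h2 : {y : Fin k → G | y a ∈ B} ∈ F d := Filter.mem_inf_of_left h1
    exact Ultrafilter.of_le (F d) h2
  · intro d
    have := hF d
    have h1 : {y : Fin k → G | d ∈ Subgroup.closure (Set.range y)} ∈ F d :=
      Filter.mem_inf_of_right (Filter.mem_principal_self _)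
    exact Ultrafilter.of_le (F d) h1

end Pool.Agent.Lib.MP_3a7344_al
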