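import Pool.Agent.Lib.MP_3a7344_al.Extend
import Pool.Agent.Lib.MP_3a7344_al.Tensor
import Pool.Agent.Lib.MP_3a7344_al.Words
import Pool.Agent.Lib.MP_3a7344_al.Essential
import Pool.Agent.Lib.MP_3a7344_al.Baire

set_option autoImplicit false

namespace Pool.Agent.Lib.MP_3a7344_al

open Set Filter
open scoped Classical

variable {G : Type} [Group G]

omit [Group G] in
lemma finite_types {K : ℕ} {ι : Type} [Fintype ι] {ρ : G → Ultrafilter (ι → G)}
    (hρ : Unif K ρ) (g : ℕ → G) :
    {τ : Ultrafilter (Finset G) | ∃ n, ∃ S : Finset ι, S.card ≤ K ∧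
      τ = (ρ (g n)).map (fun z => S.image z)}.Finite := by
  obtain ⟨Γ, hΓ, κ, hκ⟩ := hρ
  have h1 : ∀ S : Finset ι, S.card ≤ K →
      {τ : Ultrafilter (Finset G) | ∃ n, τ = (ρ (g n)).map (fun z => S.image z)}.Finite := by
    intro S hS
    have hex : ∀ γ : Γ, ∃ τ : Ultrafilter (Finset G), ∀ d, κ d = γ →
        (ρ d).map (fun z => S.image z) = τ := by
      intro γ
      by_cases h : ∃ d, κ d = γ
      · obtain ⟨d, hd⟩ := h
        refine ⟨(ρ d).map (fun z => S.image z), ?_⟩
        intro d' hd'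
        apply Ultrafilter.ext
        intro B
        have := hκ d' d (hd'.trans hd.symm) S hS (fun z => S.image z ∈ B) (by
          intro z z' hz
          have : S.image z = S.image z' := Finset.image_congr (fun i hi => hz i hi)
          rw [this])
        exact this
      · exact ⟨pure ∅, fun d hd => absurd ⟨d, hd⟩ h⟩
    choose τ hτ using hex
    apply (Set.finite_range τ).subset
    rintro _ ⟨n, rfl⟩
    exact ⟨κ (g n), (hτ _ (g n) rfl).symm⟩
  have h2 : (⋃ S ∈ {S : Finset ι | S.card ≤ K},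
      {τ : Ultrafilter (Finset G) | ∃ n, τ = (ρ (g n)).map (fun z => S.image z)}).Finite :=
    Set.Finite.biUnion (Set.toFinite _) h1
  apply h2.subset
  rintro τ ⟨n, S, hS, hτ⟩
  simp only [Set.mem_iUnion]
  exact ⟨S, hS, n, hτ⟩

/-- No countably infinite group is Cayley bounded. -/
theorem no_fast [Countable G] [Infinite G]
    (hfast : ∀ X : Set G, Subgroup.closure X = ⊤ → X.Infinite → ∃ n : ℕ, Ball n X = univ) :
    False := by
  obtain ⟨Y, X, K, hYfin, hYX, hXinf, hXgen, hK⟩ := baire hfast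
  by_cases hfg : ∃ Y' : Set G, Y'.Finite ∧ Y ⊆ Y' ∧ Y' ⊆ X ∧ Subgroup.closure Y' = ⊤
  · obtain ⟨Y', hY'fin, hYY', hY'X, hY'gen⟩ := hfg
    have hne : (Filter.cofinite ⊓ 𝓟 X).NeBot := Filter.cofinite_inf_principal_neBot_iff.2 hXinf
    set q : Ultrafilter G := @Ultrafilter.of _ (Filter.cofinite ⊓ 𝓟 X) hne with hq
    have hqX : X ∈ q := Ultrafilter.of_le _ (Filter.mem_inf_of_right (Filter.mem_principal_self X))
    have hqT : ∀ T : Finset G, (↑T : Set G)ᶜ ∈ q := fun T =>
      Ultrafilter.of_le _ (Filter.mem_inf_of_left T.finite_toSet.compl_mem_cofinite)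
    obtain ⟨z, T, hT0, hTs, hTP, h, hh⟩ := avoid K hY'fin (ι := Unit)
      (fun _ => q.map (fun x => fun _ : Unit => x))
      (by
        apply (Set.finite_range (fun S : Finset Unit =>
          (q.map (fun x => fun _ : Unit => x)).map (fun z => S.image z))).subset
        rintro _ ⟨n, S, _, rfl⟩
        exact ⟨S, rfl⟩)
      (fun _ T z => z () ∈ X ∧ z () ∉ T)
      (by
        intro n T
        have h1 : ∀ᶠ x in (q : Filter G), x ∈ X ∧ x ∉ T := by
          filter_upwards [hqX, hqT T] with x hx1 hx2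
          exact ⟨hx1, hx2⟩
        exact h1)
    have hTX : ∀ n, (↑(T n) : Set G) ⊆ X := by
      intro n
      induction n with
      | zero => rw [hT0]; simp
      | succ n ih =>
        rw [hTs n]
        intro x hx
        rw [Finset.coe_union, Set.mem_union] at hx
        rcases hx with hx | hx
        · exact ih hx
        · simp only [Finset.univ_unique, Finset.image_singleton, Finset.coe_singleton,
            Set.mem_singleton_iff] at hx
          rw [hx]; exact (hTP n).1
    have hcard : ∀ n, n ≤ (T n).card := by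
      intro n
      induction n with
      | zero => exact Nat.zero_le _
      | succ n ih =>
        rw [hTs n]
        have h1 : T n ⊂ T n ∪ Finset.univ.image (z n) := by
          rw [Finset.ssubset_iff_of_subset Finset.subset_union_left]
          exact ⟨z n (), Finset.mem_union_right _ (Finset.mem_image_of_mem _ (Finset.mem_univ _)),
            (hTP n).2⟩
        have := Finset.card_lt_card h1
        omega
    set U : Set G := ⋃ n, (↑(T n) : Set G) with hU
    have hUinf : U.Infinite := by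
      intro hfin
      have hsub : (↑(T (U.ncard + 1)) : Set G) ⊆ U :=
        Set.subset_iUnion (fun n => (↑(T n) : Set G)) (U.ncard + 1)
      have h1 := Set.ncard_le_ncard hsub hfin
      rw [Set.ncard_coe_finset] at h1
      have h2 := hcard (U.ncard + 1)
      omega
    have hZ := hK (U ∪ Y') (hYY'.trans subset_union_right)
      (union_subset (Set.iUnion_subset hTX) hY'X) (hUinf.mono subset_union_left)
      (by rw [eq_top_iff, ← hY'gen]; exact Subgroup.closure_mono subset_union_right)
    apply hh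
    rw [hZ]; trivial
  · have hinf : ∀ Z, Y ⊆ Z → Z ⊆ X → Subgroup.closure Z = ⊤ → Z.Infinite := by
      intro Z h1 h2 h3 h4
      exact hfg ⟨Z, h4, h1, h2, h3⟩
    have hfast' : ∀ Z, Y ⊆ Z → Z ⊆ X → Subgroup.closure Z = ⊤ → Ball K Z = univ :=
      fun Z h1 h2 h3 => hK Z h1 h2 (hinf Z h1 h2 h3) h3
    have hYne : Subgroup.closure Y ≠ ⊤ := fun h => hfg ⟨Y, hYfin, subset_rfl, hYX, h⟩
    obtain ⟨m, E, q, hEX, hEq, hgood⟩ := exists_Q hYX hXgen hYne hfast'
    set 𝒬 : Set (Ultrafilter G) := Set.range q ∪ (fun y => (pure y : Ultrafilter G)) '' Y with h𝒬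
    have h𝒬fin : 𝒬.Finite := (Set.finite_range q).union (hYfin.image _)
    have h𝒬X : ∀ Q ∈ 𝒬, X ∈ Q := by
      rintro Q (⟨i, rfl⟩ | ⟨y, hy, rfl⟩)
      · exact Filter.mem_of_superset (hEq i) (hEX i)
      · exact hYX hy
    obtain ⟨r, c, hc𝒬, hc, hgen⟩ := exists_r (K + 1) 𝒬 h𝒬fin (by
      intro A hA d
      have h1 := hgood (fun i => A (q i)) (fun i => hA _ (Or.inl ⟨i, rfl⟩))
      have h2 : Y ∪ ⋃ i, (A (q i) ∩ E i) ⊆ X :=
        union_subset hYX (iUnion_subset (fun i => inter_subset_right.trans (hEX i)))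
      have h3 := hfast' _ subset_union_left h2 h1
      have h4 : d ∈ Ball K (Y ∪ ⋃ i, (A (q i) ∩ E i)) := by rw [h3]; trivial
      obtain ⟨y, hy1, hy2⟩ := tuple_of_ball (hinf _ subset_union_left h2 h1).nonempty h4
      refine ⟨y, ?_, hy2⟩
      intro a
      rcases hy1 a with h5 | h5
      · exact ⟨pure (y a), Or.inr ⟨y a, h5, rfl⟩, hA (pure (y a)) (Or.inr ⟨y a, h5, rfl⟩)⟩
      · obtain ⟨i, hi⟩ := Set.mem_iUnion.1 h5
        exact ⟨q i, Or.inl ⟨i, rfl⟩, hi.1⟩)
    have hcfin : (Set.range c).Finite := by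
      apply (Set.Finite.pi' (fun _ : Fin (K + 1) => h𝒬fin)).subset
      rintro _ ⟨d, rfl⟩
      exact fun a => hc𝒬 d a
    have hX : ∀ d, ∀ᶠ y in (r d : Filter (Fin (K + 1) → G)), ∀ a, y a ∈ X := by
      intro d
      rw [Filter.eventually_all]
      intro a
      have h1 : X ∈ (r d).map (fun y => y a) := by rw [hc d a]; exact h𝒬X _ (hc𝒬 d a)
      exact h1
    obtain ⟨ι, hι, ρ, hρ1, hρ2, hρ3⟩ := exists_unif r c hc hcfin hgen X hX K
    obtain ⟨g, hg⟩ := exists_surjective_nat G
    obtain ⟨z, T, hT0, hTs, hTP, h, hh⟩ := avoid K hYfin (fun n => ρ (g n))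
      (finite_types (hρ1.mono (Nat.le_succ K)) g)
      (fun n _ z => g n ∈ Subgroup.closure (Set.range z) ∧ ∀ i, z i ∈ X)
      (fun n _ => (hρ2 (g n)).and (hρ3 (g n)))
    have hTX : ∀ n, (↑(T n) : Set G) ⊆ X := by
      intro n
      induction n with
      | zero => rw [hT0]; simp
      | succ n ih =>
        rw [hTs n]
        intro x hx
        rw [Finset.coe_union, Set.mem_union] at hx
        rcases hx with hx | hx
        · exact ih hx
        · rw [Finset.mem_coe, Finset.mem_image] at hx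
          obtain ⟨i, _, rfl⟩ := hx
          exact (hTP n).2 i
    set U : Set G := ⋃ n, (↑(T n) : Set G) with hU
    have hUgen : Subgroup.closure U = ⊤ := by
      rw [eq_top_iff]
      intro x _
      obtain ⟨n, rfl⟩ := hg x
      refine Subgroup.closure_mono ?_ (hTP n).1
      rintro _ ⟨i, rfl⟩
      refine Set.mem_iUnion.2 ⟨n + 1, ?_⟩
      rw [hTs n, Finset.coe_union]
      right
      rw [Finset.mem_coe]
      exact Finset.mem_image_of_mem _ (Finset.mem_univ _)
    have hZ := hfast' (U ∪ Y) subset_union_right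
      (union_subset (Set.iUnion_subset hTX) hYX)
      (by rw [eq_top_iff, ← hUgen]; exact Subgroup.closure_mono subset_union_left)
    apply hh
    rw [hZ]; trivial

end Pool.Agent.Lib.MP_3a7344_al
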