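import Pool.Agent.Lib.MP_3a7344_al.Ball

set_option autoImplicit false

namespace Pool.Agent.Lib.MP_3a7344_al

open Set Filter
open scoped Classical

/-- A coordinatewise partition regular family of tuples of sets contains a product of
ultrafilters. -/
theorem exists_ultra {α ι : Type} [Fintype ι] [DecidableEq ι] (good : (ι → Set α) → Prop)
    (hmono : ∀ A B : ι → Set α, (∀ i, A i ⊆ B i) → good A → good B)
    (hsplit : ∀ (A : ι → Set α) (i : ι) (B C : Set α), good (Function.update A i (B ∪ C)) →
      good (Function.update A i B) ∨ good (Function.update A i C))
    (huniv : good (fun _ => univ))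
    (hempty : ∀ i, ¬ good (Function.update (fun _ => univ) i ∅)) :
    ∃ q : ι → Ultrafilter α, ∀ A : ι → Set α, (∀ i, A i ∈ q i) → good A := by
  have key : ∀ s : Finset ι, ∃ q : ι → Ultrafilter α, ∀ A : ι → Set α,
      (∀ i ∈ s, A i ∈ q i) → (∀ i, i ∉ s → A i = univ) → good A := by
    intro s
    induction s using Finset.induction_on with
    | empty =>
      by_cases hι : Nonempty ι
      · obtain ⟨i⟩ := hι
        have : Nonempty α := by
          by_contra hα
          rw [not_nonempty_iff] at hα
          apply hempty i
          refine hmono _ _ ?_ huniv
          intro j x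
          exact (hα.false x).elim
        obtain ⟨x⟩ := this
        refine ⟨fun _ => pure x, ?_⟩
        intro A _ hA
        have : A = fun _ => univ := funext (fun i => hA i (Finset.notMem_empty i))
        rw [this]; exact huniv
      · rw [not_nonempty_iff] at hι
        refine ⟨fun i => (hι.false i).elim, ?_⟩
        intro A _ hA
        have : A = fun _ => univ := funext (fun i => hA i (Finset.notMem_empty i))
        rw [this]; exact huniv
    | insert i₀ s hi₀ ih =>
      obtain ⟨q, hq⟩ := ih
      -- the coideal of the new coordinate
      let 𝒞 : Set α → Prop := fun B => ∀ A : ι → Set α, (∀ i ∈ s, A i ∈ q i) →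
        (∀ i, i ∉ s → A i = univ) → good (Function.update A i₀ B)
      have h𝒞mono : ∀ B C, B ⊆ C → 𝒞 B → 𝒞 C := by
        intro B C hBC hB A h1 h2
        refine hmono _ _ ?_ (hB A h1 h2)
        intro i
        by_cases hi : i = i₀
        · subst hi; simpa using hBC
        · simp [Function.update_of_ne hi]
      let F : Filter α :=
        { sets := {B | ¬ 𝒞 Bᶜ}
          univ_sets := by
            intro h
            have h1 := h (fun _ => univ) (fun i _ => univ_mem) (fun i _ => rfl)
            rw [compl_univ] at h1
            exact hempty i₀ h1
          sets_of_superset := by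
            intro B C hB hBC hC
            exact hB (h𝒞mono _ _ (compl_subset_compl.2 hBC) hC)
          inter_sets := by
            intro B C hB hC h
            have hB := hB; have hC := hC
            have hB' : ∃ A : ι → Set α, (∀ i ∈ s, A i ∈ q i) ∧ (∀ i, i ∉ s → A i = univ) ∧
                ¬ good (Function.update A i₀ Bᶜ) := by
              by_contra hcon
              apply hB
              intro A h1 h2
              by_contra h3
              exact hcon ⟨A, h1, h2, h3⟩
            have hC' : ∃ A : ι → Set α, (∀ i ∈ s, A i ∈ q i) ∧ (∀ i, i ∉ s → A i = univ) ∧
                ¬ good (Function.update A i₀ Cᶜ) := by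
              by_contra hcon
              apply hC
              intro A h1 h2
              by_contra h3
              exact hcon ⟨A, h1, h2, h3⟩
            obtain ⟨A, hA1, hA2, hA3⟩ := hB'
            obtain ⟨A', hA1', hA2', hA3'⟩ := hC'
            have h1 := h (fun i => A i ∩ A' i) (fun i hi => inter_mem (hA1 i hi) (hA1' i hi))
              (fun i hi => by rw [hA2 i hi, hA2' i hi, inter_univ])
            rw [compl_inter] at h1
            rcases hsplit _ _ _ _ h1 with h2 | h2
            · apply hA3
              refine hmono _ _ ?_ h2
              intro i
              by_cases hi : i = i₀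
              · subst hi; simp
              · simp [Function.update_of_ne hi]
            · apply hA3'
              refine hmono _ _ ?_ h2
              intro i
              by_cases hi : i = i₀
              · subst hi; simp
              · simp [Function.update_of_ne hi] }
      have hF : F.NeBot := by
        rw [Filter.neBot_iff]
        intro h
        have h0 : (∅ : Set α) ∈ F := by rw [h]; exact Filter.mem_bot
        apply h0
        show 𝒞 (∅ᶜ)
        rw [compl_empty]
        intro A h1 h2
        have h3 : Function.update A i₀ univ = A := by
          rw [Function.update_eq_self_iff]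
          exact (h2 i₀ hi₀).symm
        rw [h3]
        exact hq A h1 h2
      refine ⟨Function.update q i₀ (Ultrafilter.of F), ?_⟩
      intro A hA1 hA2
      have hB : 𝒞 (A i₀) := by
        by_contra hcon
        have h1 : (A i₀)ᶜ ∈ F := by
          show ¬ 𝒞 ((A i₀)ᶜᶜ)
          rw [compl_compl]; exact hcon
        have h2 : (A i₀)ᶜ ∈ Ultrafilter.of F := Ultrafilter.of_le F h1
        have h3 : A i₀ ∈ Ultrafilter.of F := by
          have := hA1 i₀ (Finset.mem_insert_self _ _)
          simpa using this
        exact (Ultrafilter.compl_mem_iff_notMem.1 h2) h3
      have h4 := hB (Function.update A i₀ univ) (by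
          intro i hi
          have hne : i ≠ i₀ := fun h => hi₀ (h ▸ hi)
          rw [Function.update_of_ne hne]
          have := hA1 i (Finset.mem_insert_of_mem hi)
          rwa [Function.update_of_ne hne] at this)
        (by
          intro i hi
          by_cases hne : i = i₀
          · subst hne; simp
          · rw [Function.update_of_ne hne]
            exact hA2 i (by rw [Finset.mem_insert]; push Not; exact ⟨hne, hi⟩))
      simpa using h4
  obtain ⟨q, hq⟩ := key Finset.univ
  exact ⟨q, fun A hA => hq A (fun i _ => hA i) (fun i hi => absurd (Finset.mem_univ i) hi)⟩

end Pool.Agent.Lib.MP_3a7344_al
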